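import Pool.Agent.Helper80.Kl.Final
import Pool.Agent.Kleitman.Main

/-!
Kleitman's problem on union-free families: the maximal size `u n` of a family of subsets of an
`n`-set without three distinct members `A, B, C` with `A ∪ B = C` is
`choose n (n / 2) * (1 + Θ(1 / n))`, with explicit constants.
-/

set_option autoImplicit false

open Finset

namespace Pool.Agent.Helper90.UnionFreeSharp

/-- there are no three distinct members `A, B, C` of `F` with `A ∪ B = C` -/
def UnionFree {n : ℕ} (F : Finset (Finset (Fin n))) : Prop :=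
  ∀ A ∈ F, ∀ B ∈ F, ∀ C ∈ F, A ≠ B → A ≠ C → B ≠ C → A ∪ B ≠ C

open Classical in
/-- `u n`: the largest size of a union-free family of subsets of an `n`-set -/
noncomputable def u (n : ℕ) : ℕ :=
  ((Finset.univ : Finset (Finset (Finset (Fin n)))).filter fun F => UnionFree F).sup Finset.card

theorem card_le_u {n : ℕ} {F : Finset (Finset (Fin n))} (hF : UnionFree F) : #F ≤ u n := by
  classical
  unfold u
  exact Finset.le_sup (f := Finset.card) (mem_filter.2 ⟨mem_univ _, hF⟩)

theorem exists_card_eq_u (n : ℕ) : ∃ F : Finset (Finset (Fin n)), UnionFree F ∧ #F = u n := by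
  classical
  have hne : ((Finset.univ : Finset (Finset (Finset (Fin n)))).filter
      fun F => UnionFree F).Nonempty :=
    ⟨∅, mem_filter.2 ⟨mem_univ _, fun A hA => absurd hA (notMem_empty _)⟩⟩
  obtain ⟨F, hF, h⟩ := Finset.exists_mem_eq_sup _ hne Finset.card
  refine ⟨F, (mem_filter.1 hF).2, ?_⟩
  unfold u
  exact h.symm

/-- two different `j`-sets with the same element sum modulo `n` do not have a union of size
`j + 1` -/
theorem card_union_ne {n j : ℕ} {A B : Finset (Fin n)} (hA : #A = j) (hB : #B = j)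
    (hs : ∑ x ∈ A, ((x : ℕ) : ZMod n) = ∑ x ∈ B, ((x : ℕ) : ZMod n)) : #(A ∪ B) ≠ j + 1 := by
  intro hU
  have e1 : #(A \ B) = 1 := by
    have := card_sdiff_add_card A B
    omega
  have e2 : #(B \ A) = 1 := by
    have := card_sdiff_add_card B A
    rw [union_comm] at this
    omega
  obtain ⟨a, ha⟩ := card_eq_one.1 e1
  obtain ⟨b, hb⟩ := card_eq_one.1 e2
  have s1 : ∑ x ∈ A, ((x : ℕ) : ZMod n) = ((a : ℕ) : ZMod n) + ∑ x ∈ A ∩ B, ((x : ℕ) : ZMod n) := by
    have := sum_sdiff (f := fun x : Fin n => ((x : ℕ) : ZMod n)) (inter_subset_left (s₁ := A) (s₂ := B))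
    rw [sdiff_inter_self_left, ha, sum_singleton] at this
    exact this.symm
  have s2 : ∑ x ∈ B, ((x : ℕ) : ZMod n) = ((b : ℕ) : ZMod n) + ∑ x ∈ A ∩ B, ((x : ℕ) : ZMod n) := by
    have := sum_sdiff (f := fun x : Fin n => ((x : ℕ) : ZMod n)) (inter_subset_left (s₁ := B) (s₂ := A))
    rw [sdiff_inter_self_left, hb, sum_singleton, inter_comm B A] at this
    exact this.symm
  have h1 : ((a : ℕ) : ZMod n) = ((b : ℕ) : ZMod n) := by
    have h2 := s1.symm.trans (hs.trans s2)
    exact add_right_cancel h2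
  have h3 : (a : ℕ) = b := by
    have h4 := (ZMod.natCast_eq_natCast_iff' _ _ _).1 h1
    rwa [Nat.mod_eq_of_lt a.isLt, Nat.mod_eq_of_lt b.isLt] at h4
  have h5 : a ∈ A \ B := by rw [ha]; exact mem_singleton_self _
  have h6 : b ∈ B \ A := by rw [hb]; exact mem_singleton_self _
  have h7 : a = b := Fin.ext h3
  rw [mem_sdiff] at h5 h6
  exact h5.2 (h7 ▸ h6.1)

/-- level `j + 1` together with a code of level `j` -/
theorem lower {n j : ℕ} (hn : 1 ≤ n) :
    (n.choose (j + 1) : ℝ) + (n.choose j : ℝ) / n ≤ u n := by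
  classical
  have : NeZero n := ⟨by omega⟩
  have hn0 : (0 : ℝ) < n := by exact_mod_cast hn
  set S : Finset (Finset (Fin n)) := powersetCard j univ with hS
  set f : Finset (Fin n) → ZMod n := fun A => ∑ x ∈ A, ((x : ℕ) : ZMod n) with hf
  obtain ⟨y, -, hy⟩ := Finset.exists_le_card_fiber_of_nsmul_le_card_of_maps_to (s := S)
    (t := (univ : Finset (ZMod n))) (f := f) (b := (n.choose j : ℝ) / n)
    (fun a _ => mem_univ _) univ_nonempty (by
      rw [card_univ, ZMod.card, nsmul_eq_mul, hS, card_powersetCard, card_univ, Fintype.card_fin]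
      exact (mul_div_cancel₀ _ hn0.ne').le)
  set D := S.filter fun A => f A = y with hD
  have hDj : ∀ A ∈ D, #A = j ∧ f A = y := by
    intro A hA
    rw [hD, mem_filter, hS, mem_powersetCard] at hA
    exact ⟨hA.1.2, hA.2⟩
  set T : Finset (Finset (Fin n)) := powersetCard (j + 1) univ with hT
  have hTj : ∀ A ∈ T, #A = j + 1 := fun A hA => (mem_powersetCard.1 hA).2
  have hdis : Disjoint T D := by
    rw [disjoint_left]
    intro A h1 h2
    have := hTj A h1
    have := (hDj A h2).1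
    omega
  have hUF : UnionFree (T ∪ D) := by
    intro A hA B hB C hC hAB hAC hBC h
    have hsize : ∀ X ∈ T ∪ D, #X = j + 1 ∨ (#X = j ∧ f X = y) := by
      intro X hX
      rcases mem_union.1 hX with h | h
      · exact Or.inl (hTj X h)
      · exact Or.inr (hDj X h)
    have hAC' : A ⊆ C := h ▸ subset_union_left
    have hBC' : B ⊆ C := h ▸ subset_union_right
    have lA : #A < #C := card_lt_card (Finset.ssubset_iff_subset_ne.2 ⟨hAC', hAC⟩)
    have lB : #B < #C := card_lt_card (Finset.ssubset_iff_subset_ne.2 ⟨hBC', hBC⟩)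
    have hC1 : #C = j + 1 := by
      rcases hsize C hC with h1 | h1
      · exact h1
      · rcases hsize A hA with h2 | h2 <;> omega
    have hA1 : #A = j ∧ f A = y := by
      rcases hsize A hA with h1 | h1
      · omega
      · exact h1
    have hB1 : #B = j ∧ f B = y := by
      rcases hsize B hB with h1 | h1
      · omega
      · exact h1
    exact card_union_ne hA1.1 hB1.1 (hA1.2.trans hB1.2.symm) (h ▸ hC1)
  have h1 := card_le_u hUF
  rw [card_union_of_disjoint hdis] at h1
  have h2 : #T = n.choose (j + 1) := by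
    rw [hT, card_powersetCard, card_univ, Fintype.card_fin]
  rw [h2] at h1
  have h3 : (n.choose (j + 1) : ℝ) + (#D : ℝ) ≤ u n := by exact_mod_cast h1
  linarith

theorem lower_mid {n : ℕ} (hn : 1 ≤ n) :
    (n.choose (n / 2) : ℝ) * (1 + 1 / ((n : ℝ) + 2)) ≤ u n := by
  have hn0 : (0 : ℝ) < n := by exact_mod_cast hn
  rcases Nat.even_or_odd' n with ⟨m, rfl | rfl⟩
  · obtain ⟨j, rfl⟩ : ∃ j, m = j + 1 := ⟨m - 1, by omega⟩
    have h := lower (n := 2 * (j + 1)) (j := j) hn
    have e : 2 * (j + 1) / 2 = j + 1 := by omega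
    rw [e]
    have hc := Nat.choose_succ_right_eq (2 * (j + 1)) j
    have e2 : 2 * (j + 1) - j = j + 2 := by omega
    rw [e2] at hc
    have hc' : ((2 * (j + 1)).choose (j + 1) : ℝ) * (j + 1) = ((2 * (j + 1)).choose j : ℝ) * (j + 2) := by
      exact_mod_cast hc
    set X : ℝ := ((2 * (j + 1)).choose (j + 1) : ℝ) with hX
    set Y : ℝ := ((2 * (j + 1)).choose j : ℝ) with hY
    have hj : (0 : ℝ) ≤ j := Nat.cast_nonneg j
    have key : X * (1 + 1 / (((2 * (j + 1) : ℕ) : ℝ) + 2)) = X + Y / ((2 * (j + 1) : ℕ) : ℝ) := by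
      push_cast
      have h1 : (2 * ((j : ℝ) + 1) + 2) ≠ 0 := by positivity
      have h2 : (2 * ((j : ℝ) + 1)) ≠ 0 := by positivity
      have h3 : X = Y * (j + 2) / (j + 1) := by
        rw [eq_div_iff (by positivity)]
        exact hc'
      rw [mul_add, mul_one, h3]
      congr 1
      field_simp
      ring
    rw [key]
    exact h
  · have h := lower (n := 2 * m + 1) (j := m) hn
    have e : (2 * m + 1) / 2 = m := by omega
    rw [e]
    rw [Nat.choose_symm_half m] at h
    refine le_trans ?_ h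
    set X : ℝ := ((2 * m + 1).choose m : ℝ) with hX
    have hX0 : 0 ≤ X := Nat.cast_nonneg _
    rw [mul_add, mul_one, div_eq_mul_one_div X]
    have h1 : (1 : ℝ) / (((2 * m + 1 : ℕ) : ℝ) + 2) ≤ 1 / ((2 * m + 1 : ℕ) : ℝ) :=
      one_div_le_one_div_of_le hn0 (by linarith)
    have := mul_le_mul_of_nonneg_left h1 hX0
    linarith

theorem upper_large {n : ℕ} (hn : 10 ^ 200 ≤ n) :
    (u n : ℝ) ≤ (n.choose (n / 2) : ℝ) * (1 + 10 ^ 32 / n) := by
  obtain ⟨F, hF, h⟩ := exists_card_eq_u n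
  rw [← h]
  exact Pool.Agent.Helper80.Kl.large_bound (fun c _ hK => c.main_lemma hK) hn hF

theorem upper {n : ℕ} (hn : 1 ≤ n) :
    (u n : ℝ) ≤ (n.choose (n / 2) : ℝ) * (1 + 10 ^ 400 / n) := by
  have hn0 : (0 : ℝ) < n := by exact_mod_cast hn
  have hM : (0 : ℝ) ≤ (n.choose (n / 2) : ℝ) := Nat.cast_nonneg _
  rcases le_total (10 ^ 200) n with h | h
  · refine (upper_large h).trans (mul_le_mul_of_nonneg_left ?_ hM)
    have h1 : (10 : ℝ) ^ 32 ≤ 10 ^ 400 := pow_le_pow_right₀ (by norm_num) (by norm_num)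
    have := div_le_div_of_nonneg_right h1 hn0.le
    linarith
  · obtain ⟨F, hF, hc⟩ := exists_card_eq_u n
    rw [← hc]
    have h1 : (#F : ℝ) ≤ 2 ^ n := by
      have h0 : #F ≤ 2 ^ n := by
        have := card_le_univ F
        rwa [Fintype.card_finset, Fintype.card_fin] at this
      exact_mod_cast h0
    have h2 : (2 : ℝ) ^ n ≤ (n + 1) * (n.choose (n / 2) : ℝ) := by
      have h0 : 2 ^ n ≤ (n + 1) * n.choose (n / 2) := by
        rw [← Nat.sum_range_choose n]
        calc ∑ m ∈ range (n + 1), n.choose m ≤ ∑ m ∈ range (n + 1), n.choose (n / 2) :=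
              Finset.sum_le_sum fun m _ => Nat.choose_le_middle m n
          _ = (n + 1) * n.choose (n / 2) := by rw [Finset.sum_const, card_range, smul_eq_mul]
      exact_mod_cast h0
    refine h1.trans (h2.trans ?_)
    rw [mul_comm]
    refine mul_le_mul_of_nonneg_left ?_ hM
    have h3 : (n : ℝ) ≤ 10 ^ 200 := by exact_mod_cast h
    have h4 : (n : ℝ) ≤ 10 ^ 400 / n := by
      rw [le_div_iff₀ hn0]
      calc (n : ℝ) * n ≤ 10 ^ 200 * 10 ^ 200 := mul_le_mul h3 h3 hn0.le (by positivity)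
        _ = 10 ^ 400 := by rw [← pow_add]
    linarith

/-- **Kleitman's problem, with the exact order of the error term.** -/
theorem result :
    (∀ n : ℕ, (∃ F : Finset (Finset (Fin n)), UnionFree F ∧ F.card = u n) ∧
      ∀ F : Finset (Finset (Fin n)), UnionFree F → F.card ≤ u n) ∧
    (∀ n : ℕ, 1 ≤ n →
      (n.choose (n / 2) : ℝ) * (1 + 1 / ((n : ℝ) + 2)) ≤ (u n : ℝ) ∧
      (u n : ℝ) ≤ (n.choose (n / 2) : ℝ) * (1 + 10 ^ 400 / (n : ℝ))) ∧
    (∀ n : ℕ, 10 ^ 200 ≤ n →
      (u n : ℝ) ≤ (n.choose (n / 2) : ℝ) * (1 + 10 ^ 32 / (n : ℝ))) :=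
  ⟨fun n => ⟨exists_card_eq_u n, fun _ hF => card_le_u hF⟩,
    fun _ hn => ⟨lower_mid hn, upper hn⟩, fun _ hn => upper_large hn⟩

end Pool.Agent.Helper90.UnionFreeSharp
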